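import Mathlib

set_option autoImplicit false

namespace Pool.Agent.H354Z.Sens

open Finset

abbrev Q (n : ℕ) := Fin n → Bool

variable {n : ℕ}

def flp (x : Q n) (i : Fin n) : Q n := Function.update x i (!x i)

def sens (f : Q n → Bool) (x : Q n) : ℕ := (univ.filter (fun i => f (flp x i) ≠ f x)).card

def Rel (f : Q n → Bool) (i : Fin n) : Prop := ∃ x, f (flp x i) ≠ f x

def sig (f : Q n → Bool) (i : Fin n) : ℕ :=
  univ.sup (fun x => if f (flp x i) ≠ f x then sens f x + sens f (flp x i) else 0)

open Classical in
noncomputable def wt (f : Q n → Bool) (i : Fin n) : ℝ := if Rel f i then (1/2 : ℝ) ^ (sig f i) else 0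

def res (f : Q n → Bool) (j : Fin n) (b : Bool) : Q n → Bool := fun x => f (Function.update x j b)

def resH (f : Q n → Bool) (H : Finset (Fin n)) (α : Q n) : Q n → Bool :=
  fun x => f (H.piecewise α x)

@[simp] lemma flp_self (x : Q n) (i : Fin n) : flp x i i = !x i := by simp [flp]

lemma flp_ne (x : Q n) {i j : Fin n} (h : j ≠ i) : flp x i j = x j := by
  simp [flp, Function.update_of_ne h]

@[simp] lemma flp_flp (x : Q n) (i : Fin n) : flp (flp x i) i = x := by
  funext j
  by_cases h : j = i
  · subst h; simp
  · simp [flp_ne _ h]

lemma flp_comm (x : Q n) (i j : Fin n) : flp (flp x i) j = flp (flp x j) i := by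
  funext k
  by_cases hij : i = j
  · subst hij; rfl
  by_cases h1 : k = i
  · subst h1
    rw [flp_ne _ hij, flp_self, flp_self, flp_ne _ hij]
  by_cases h2 : k = j
  · subst h2
    rw [flp_self, flp_ne _ h1, flp_ne _ h1, flp_self]
  · rw [flp_ne _ h2, flp_ne _ h1, flp_ne _ h1, flp_ne _ h2]

lemma update_flp (x : Q n) {i j : Fin n} (h : i ≠ j) (b : Bool) :
    Function.update (flp x i) j b = flp (Function.update x j b) i := by
  funext k
  by_cases h2 : k = j
  · subst h2
    rw [flp_ne _ (Ne.symm h)]; simp
  · rw [Function.update_of_ne h2]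
    by_cases h1 : k = i
    · subst h1; simp [Function.update_of_ne h2]
    · rw [flp_ne _ h1, flp_ne _ h1, Function.update_of_ne h2]

lemma update_flp_same (x : Q n) (j : Fin n) (b : Bool) :
    Function.update (flp x j) j b = Function.update x j b := by
  simp [flp]

lemma wt_nonneg (f : Q n → Bool) (i : Fin n) : 0 ≤ wt f i := by
  unfold wt; split_ifs <;> positivity

lemma wt_le (f : Q n → Bool) (i : Fin n) : wt f i ≤ (1/2 : ℝ) ^ (sig f i) := by
  unfold wt; split_ifs
  · exact le_rfl
  · positivity

lemma le_sig {f : Q n → Bool} {i : Fin n} {x : Q n} (h : f (flp x i) ≠ f x) :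
    sens f x + sens f (flp x i) ≤ sig f i := by
  unfold sig
  have := Finset.le_sup (f := fun x => if f (flp x i) ≠ f x then sens f x + sens f (flp x i) else 0)
    (Finset.mem_univ x)
  simpa [h] using this

lemma sens_pos {f : Q n → Bool} {i : Fin n} {x : Q n} (h : f (flp x i) ≠ f x) : 0 < sens f x := by
  unfold sens
  exact Finset.card_pos.mpr ⟨i, by simpa using h⟩

lemma sens_lt_sig {f : Q n → Bool} {i : Fin n} {x : Q n} (h : f (flp x i) ≠ f x) :
    sens f x < sig f i := by
  have h1 := le_sig h
  have h2 : 0 < sens f (flp x i) := sens_pos (i := i) (by rw [flp_flp]; exact h.symm)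
  omega

lemma sig_le {f : Q n → Bool} {i : Fin n} {m : ℕ}
    (h : ∀ x, f (flp x i) ≠ f x → sens f x + sens f (flp x i) ≤ m) : sig f i ≤ m := by
  unfold sig
  apply Finset.sup_le
  intro x _
  split_ifs with hx
  · exact h x hx
  · exact Nat.zero_le _

/-- sensitivity of a restriction -/
lemma sens_res (f : Q n → Bool) (j : Fin n) (b : Bool) (x : Q n) :
    sens (res f j b) x + (if f (flp (Function.update x j b) j) ≠ f (Function.update x j b) then 1 else 0)
      = sens f (Function.update x j b) := by
  unfold sens
  set y := Function.update x j b with hy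
  have h1 : (univ.filter (fun i => res f j b (flp x i) ≠ res f j b x))
      = (univ.filter (fun i => f (flp y i) ≠ f y)).erase j := by
    ext i
    rw [mem_filter, mem_erase, mem_filter]
    unfold res
    by_cases hij : i = j
    · subst hij; simp [update_flp_same]
    · rw [update_flp x hij b]; simp [hij, hy]
  rw [h1]
  split_ifs with h
  · exact Finset.card_erase_add_one (by simpa using h)
  · rw [Finset.erase_eq_of_notMem (by simpa using h)]; simp

lemma sig_res_le (f : Q n → Bool) {i j : Fin n} (hij : i ≠ j) (b : Bool) :
    sig (res f j b) i ≤ sig f i := by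
  apply sig_le
  intro x hx
  have h1 := sens_res f j b x
  have h2 := sens_res f j b (flp x i)
  rw [update_flp x hij b] at h2
  have h3 : f (flp (Function.update x j b) i) ≠ f (Function.update x j b) := by
    simpa [res, update_flp x hij b] using hx
  have h4 := le_sig h3
  omega

lemma sig_res_lt (f : Q n → Bool) {i j : Fin n} (hij : i ≠ j) (b : Bool)
    (hrel : Rel (res f j b) i) (hn : ¬ Rel (res f j (!b)) i) :
    sig (res f j b) i + 1 ≤ sig f i := by
  have key : ∀ x, res f j b (flp x i) ≠ res f j b x →
      sens (res f j b) x + sens (res f j b) (flp x i) + 1 ≤ sig f i := by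
    intro x hx
    have h1 := sens_res f j b x
    have h2 := sens_res f j b (flp x i)
    rw [update_flp x hij b] at h2
    set y := Function.update x j b with hy
    have h3 : f (flp y i) ≠ f y := by
      simpa [res, update_flp x hij b] using hx
    have h4 := le_sig h3
    have h5 : f (flp (flp y i) j) = f (flp y j) := by
      by_contra hc
      apply hn
      refine ⟨x, ?_⟩
      have e1 : Function.update x j (!b) = flp y j := by
        simp [flp, hy]
      simp only [res]
      rw [update_flp x hij, e1, flp_comm]
      exact hc
    by_cases h6 : f (flp y j) ≠ f y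
    · rw [if_pos h6] at h1; omega
    · have h7 : f (flp (flp y i) j) ≠ f (flp y i) := by
        rw [h5]; push Not at h6; rw [h6]; exact h3.symm
      rw [if_pos h7] at h2; omega
  obtain ⟨x0, hx0⟩ := hrel
  have hpos : 1 ≤ sig f i := by have := key x0 hx0; omega
  have : sig (res f j b) i ≤ sig f i - 1 := by
    apply sig_le
    intro x hx
    have := key x hx
    omega
  omega

lemma rel_res (f : Q n → Bool) {i j : Fin n} (hij : i ≠ j) (h : Rel f i) :
    Rel (res f j false) i ∨ Rel (res f j true) i := by
  obtain ⟨x, hx⟩ := h
  have : Rel (res f j (x j)) i := by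
    refine ⟨x, ?_⟩
    simp only [res]
    rw [update_flp x hij]
    simpa using hx
  cases hb : x j
  · left; rwa [hb] at this
  · right; rwa [hb] at this

lemma wt_res (f : Q n → Bool) {i j : Fin n} (hij : i ≠ j) :
    wt f i ≤ (wt (res f j false) i + wt (res f j true) i) / 2 := by
  by_cases h : Rel f i
  · have e : wt f i = (1/2 : ℝ) ^ (sig f i) := by simp [wt, h]
    have mono : ∀ a b : ℕ, a ≤ b → (1/2 : ℝ) ^ b ≤ (1/2 : ℝ) ^ a := fun a b hab =>
      pow_le_pow_of_le_one (by norm_num) (by norm_num) hab
    by_cases h0 : Rel (res f j false) i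
    · have e0 : wt (res f j false) i = (1/2 : ℝ) ^ (sig (res f j false) i) := by simp [wt, h0]
      by_cases h1 : Rel (res f j true) i
      · have e1 : wt (res f j true) i = (1/2 : ℝ) ^ (sig (res f j true) i) := by simp [wt, h1]
        have a0 := mono _ _ (sig_res_le f hij false)
        have a1 := mono _ _ (sig_res_le f hij true)
        rw [e, e0, e1]; linarith
      · have a0 := mono _ _ (sig_res_lt f hij false h0 (by simpa using h1))
        have := wt_nonneg (res f j true) i
        rw [e, e0]; rw [pow_succ] at a0; linarith
    · have h1 : Rel (res f j true) i := (rel_res f hij h).resolve_left h0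
      have e1 : wt (res f j true) i = (1/2 : ℝ) ^ (sig (res f j true) i) := by simp [wt, h1]
      have a0 := mono _ _ (sig_res_lt f hij true h1 (by simpa using h0))
      have := wt_nonneg (res f j false) i
      rw [e, e1]; rw [pow_succ] at a0; linarith
  · have e : wt f i = 0 := by simp [wt, h]
    have := wt_nonneg (res f j false) i
    have := wt_nonneg (res f j true) i
    rw [e]; linarith

lemma sum_wt_resH (T : Finset (Fin n)) (B : ℝ) (H : Finset (Fin n)) :
    ∀ f : Q n → Bool, Disjoint T H → (∀ α, ∑ i ∈ T, wt (resH f H α) i ≤ B) →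
      ∑ i ∈ T, wt f i ≤ B := by
  induction H using Finset.induction_on with
  | empty =>
    intro f _ h
    have := h (fun _ => false)
    have e : resH f ∅ (fun _ => false) = f := by funext x; simp [resH]
    rwa [e] at this
  | insert j H hj ih =>
    intro f hd h
    have hdH : Disjoint T H := Finset.disjoint_of_subset_right (Finset.subset_insert j H) hd
    have hjT : j ∉ T := fun hT => (Finset.disjoint_left.mp hd hT) (Finset.mem_insert_self j H)
    have hb : ∀ b, ∑ i ∈ T, wt (res f j b) i ≤ B := by
      intro b
      apply ih _ hdH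
      intro α
      have := h (Function.update α j b)
      have e : resH f (insert j H) (Function.update α j b) = resH (res f j b) H α := by
        funext x
        simp only [resH, res]
        congr 1
        funext k
        by_cases hk : k = j
        · subst hk; simp
        · by_cases hkH : k ∈ H
          · simp [Finset.piecewise, hk, hkH]
          · simp [Finset.piecewise, hk, hkH]
      rwa [e] at this
    calc ∑ i ∈ T, wt f i ≤ ∑ i ∈ T, (wt (res f j false) i + wt (res f j true) i) / 2 := by
          apply Finset.sum_le_sum
          intro i hi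
          exact wt_res f (fun e => hjT (e ▸ hi))
      _ = (∑ i ∈ T, wt (res f j false) i + ∑ i ∈ T, wt (res f j true) i) / 2 := by
          rw [← Finset.sum_add_distrib, Finset.sum_div]
      _ ≤ B := by have := hb false; have := hb true; linarith

noncomputable def W (f : Q n → Bool) : ℝ := ∑ i, wt f i

lemma W_le_of_resH (f : Q n → Bool) (H : Finset (Fin n)) (B : ℝ)
    (h : ∀ α, W (resH f H α) ≤ B) : W f ≤ ∑ i ∈ H, wt f i + B := by
  have h1 : ∑ i ∈ Hᶜ, wt f i ≤ B := by
    apply sum_wt_resH Hᶜ B H f disjoint_compl_left
    intro α
    refine le_trans ?_ (h α)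
    exact Finset.sum_le_sum_of_subset_of_nonneg (Finset.subset_univ _)
      (fun i _ _ => wt_nonneg _ i)
  have h2 : W f = ∑ i ∈ H, wt f i + ∑ i ∈ Hᶜ, wt f i := by
    rw [W, Finset.sum_add_sum_compl]
  linarith

/-- a function only depends on its relevant coordinates -/
lemma eq_of_agree (f : Q n → Bool) (x y : Q n) (h : ∀ i, Rel f i → x i = y i) : f x = f y := by
  classical
  have key : ∀ T : Finset (Fin n), (∀ i ∈ T, ¬ Rel f i) → f (T.piecewise y x) = f x := by
    intro T
    induction T using Finset.induction_on with
    | empty => intro _; simp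
    | insert j T hj ih =>
      intro hT
      have h1 := ih (fun i hi => hT i (Finset.mem_insert_of_mem hi))
      have h2 : ¬ Rel f j := hT j (Finset.mem_insert_self j T)
      rw [← h1, Finset.piecewise_insert]
      set z := T.piecewise y x
      by_cases hz : y j = z j
      · rw [hz, Function.update_eq_self]
      · have : Function.update z j (y j) = flp z j := by
          unfold flp; congr 1
          revert hz; cases y j <;> cases z j <;> simp
        rw [this]
        by_contra hc
        exact h2 ⟨z, hc⟩
  have := key (univ.filter (fun i => ¬ Rel f i)) (by simp)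
  rw [← this]
  congr 1
  funext i
  by_cases hi : Rel f i
  · simp [Finset.piecewise, hi, h i hi]
  · simp [Finset.piecewise, hi]

end Pool.Agent.H354Z.Sens
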