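import Pool.Agent.H354Z.Sens.Iso

set_option autoImplicit false

namespace Pool.Agent.H354Z.Sens

open Finset Polynomial

variable {n : ℕ}

def sg (b : Bool) : ℝ := if b then -1 else 1

def chi (S : Finset (Fin n)) (x : Q n) : ℝ := ∏ i ∈ S, sg (x i)

def Rep (f : Q n → Bool) (d : ℕ) (c : Finset (Fin n) → ℝ) : Prop :=
  (∀ S, d < S.card → c S = 0) ∧ ∀ x, sg (f x) = ∑ S, c S * chi S x

lemma sg_mul_self (b : Bool) : sg b * sg b = 1 := by cases b <;> simp [sg]

lemma sg_not (b : Bool) : sg (!b) = - sg b := by cases b <;> simp [sg]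

lemma abs_sg (b : Bool) : |sg b| = 1 := by cases b <;> simp [sg]

lemma sg_of_ne {a b : Bool} (h : a ≠ b) : sg a = - sg b := by
  revert h; cases a <;> cases b <;> simp [sg]

lemma sg_inj {a b : Bool} (h : sg a = sg b) : a = b := by
  revert h; cases a <;> cases b <;> simp [sg] <;> norm_num

lemma chi_mul_self (S : Finset (Fin n)) (x : Q n) : chi S x * chi S x = 1 := by
  unfold chi; rw [← Finset.prod_mul_distrib]; simp [sg_mul_self]

lemma chi_flp_notMem {S : Finset (Fin n)} {j : Fin n} (h : j ∉ S) (x : Q n) :
    chi S (flp x j) = chi S x := by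
  unfold chi
  apply Finset.prod_congr rfl
  intro i hi
  have hij : i ≠ j := fun e => h (e ▸ hi)
  rw [flp_ne _ hij]

lemma chi_flp_mem {S : Finset (Fin n)} {j : Fin n} (h : j ∈ S) (x : Q n) :
    chi S (flp x j) = - chi S x := by
  have e : ∀ y : Q n, chi S y = sg (y j) * chi (S.erase j) y := fun y => by
    unfold chi; rw [Finset.mul_prod_erase S (fun i => sg (y i)) h]
  rw [e, e x, chi_flp_notMem (Finset.notMem_erase j S), flp_self, sg_not]; ring

theorem exists_rep (f : Q n → Bool) : ∃ c, Rep f n c := by
  refine ⟨fun S => (∑ y, sg (f y) * chi S y) / 2 ^ n, ?_, ?_⟩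
  · intro S hS
    have := Finset.card_le_univ S
    simp at this; omega
  · intro x
    have key : ∀ y : Q n, ∑ S : Finset (Fin n), chi S y * chi S x = if y = x then 2 ^ n else 0 := by
      intro y
      have h1 : ∑ S : Finset (Fin n), chi S y * chi S x = ∏ i, (1 + sg (y i) * sg (x i)) := by
        rw [Finset.prod_one_add, Finset.powerset_univ]
        apply Finset.sum_congr rfl
        intro S _
        unfold chi; rw [Finset.prod_mul_distrib]
      rw [h1]
      split_ifs with h
      · subst h; simp only [sg_mul_self]; norm_num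
      · obtain ⟨i, hi⟩ := Function.ne_iff.mp h
        apply Finset.prod_eq_zero (Finset.mem_univ i)
        rw [sg_of_ne hi, neg_mul, sg_mul_self]; ring
    calc sg (f x) = ∑ y, sg (f y) * (if y = x then 2 ^ n else 0) / 2 ^ n := by
          rw [Finset.sum_eq_single x]
          · simp
          · intro y _ hy; simp [hy]
          · simp
      _ = ∑ y, ∑ S : Finset (Fin n), sg (f y) * chi S y / 2 ^ n * chi S x := by
          apply Finset.sum_congr rfl
          intro y _
          rw [← key y, Finset.mul_sum, Finset.sum_div]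
          apply Finset.sum_congr rfl
          intro S _; ring
      _ = _ := by
          rw [Finset.sum_comm]
          apply Finset.sum_congr rfl
          intro S _
          beta_reduce
          rw [Finset.sum_div, Finset.sum_mul]

lemma chi_piecewise (S U : Finset (Fin n)) (α x : Q n) :
    chi S (U.piecewise α x) = chi (S ∩ U) α * chi (S \ U) x := by
  unfold chi
  rw [← Finset.prod_piecewise]
  apply Finset.prod_congr rfl
  intro i _
  by_cases h : i ∈ U <;> simp [Finset.piecewise, h]

theorem rep_resH {f : Q n → Bool} {d : ℕ} {c : Finset (Fin n) → ℝ} (h : Rep f (d+1) c)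
    (U : Finset (Fin n)) (hU : ∀ S, S.card = d + 1 → c S ≠ 0 → (S ∩ U).Nonempty) (α : Q n) :
    ∃ c', Rep (resH f U α) d c' := by
  refine ⟨fun T => ∑ S ∈ univ.filter (fun S => S \ U = T), c S * chi (S ∩ U) α, ?_, ?_⟩
  · intro T hT
    apply Finset.sum_eq_zero
    intro S hS
    simp only [mem_filter, mem_univ, true_and] at hS
    have h1 := Finset.card_sdiff_add_card_inter S U
    rw [hS] at h1
    by_cases h2 : d + 1 < S.card
    · rw [h.1 S h2, zero_mul]
    · by_cases h3 : c S = 0
      · rw [h3, zero_mul]
      · have := (hU S (by omega) h3).card_pos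
        omega
  · intro x
    unfold resH
    rw [h.2, ← Finset.sum_fiberwise univ (fun S => S \ U)]
    apply Finset.sum_congr rfl
    intro T _
    rw [Finset.sum_mul]
    apply Finset.sum_congr rfl
    intro S hS
    simp only [mem_filter, mem_univ, true_and] at hS
    rw [chi_piecewise, hS]; ring

theorem rep_zero {f : Q n → Bool} {c : Finset (Fin n) → ℝ} (h : Rep f 0 c) : W f = 0 := by
  have key : ∀ x, sg (f x) = c ∅ := by
    intro x
    rw [h.2, Finset.sum_eq_single ∅]
    · simp [chi]
    · intro S _ hS
      rw [h.1 S (Finset.card_pos.mpr (Finset.nonempty_iff_ne_empty.mpr hS)), zero_mul]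
    · simp
  unfold W
  apply Finset.sum_eq_zero
  intro i _
  unfold wt
  rw [if_neg]
  rintro ⟨x, hx⟩
  exact hx (sg_inj (by rw [key, key]))

def flipSet (x : Q n) (B : Finset (Fin n)) : Q n := fun i => if i ∈ B then !x i else x i

def eps (S B : Finset (Fin n)) : ℝ := ∏ i ∈ S, if i ∈ B then -1 else 1

lemma chi_flipSet (S B : Finset (Fin n)) (x : Q n) : chi S (flipSet x B) = chi S x * eps S B := by
  unfold chi eps flipSet
  rw [← Finset.prod_mul_distrib]
  apply Finset.prod_congr rfl
  intro i _
  by_cases h : i ∈ B <;> simp [h, sg_not]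

lemma eps_disj {S B : Finset (Fin n)} (h : Disjoint S B) : eps S B = 1 := by
  unfold eps
  apply Finset.prod_eq_one
  intro i hi
  rw [if_neg (Finset.disjoint_left.mp h hi)]

noncomputable def fac (S B : Finset (Fin n)) : ℝ[X] :=
  C ((1 + eps S B) / 2) + C ((1 - eps S B) / 2) * X

noncomputable def bpoly {κ : Type} (c : Finset (Fin n) → ℝ) (B : κ → Finset (Fin n))
    (N : Finset κ) (x : Q n) : ℝ[X] :=
  ∑ S, C (c S * chi S x) * ∏ k ∈ N, fac S (B k)

lemma bpoly_abs {κ : Type} [DecidableEq κ] {f : Q n → Bool} {d : ℕ} {c : Finset (Fin n) → ℝ}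
    (h : Rep f d c) (B : κ → Finset (Fin n)) (t : ℝ) (ht : t ∈ Set.Icc (-1:ℝ) 1) (N : Finset κ) :
    ∀ x, |(bpoly c B N x).eval t| ≤ 1 := by
  induction N using Finset.induction_on with
  | empty =>
    intro x
    have : (bpoly c B ∅ x).eval t = sg (f x) := by
      rw [h.2]; simp [bpoly, eval_finsetSum]
    rw [this, abs_sg]
  | insert k N hk ih =>
    intro x
    have e : (bpoly c B (insert k N) x).eval t = (1 + t) / 2 * (bpoly c B N x).eval t +
        (1 - t) / 2 * (bpoly c B N (flipSet x (B k))).eval t := by
      simp only [bpoly, eval_finsetSum, Finset.prod_insert hk, eval_mul, eval_C, chi_flipSet,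
        Finset.mul_sum, ← Finset.sum_add_distrib]
      apply Finset.sum_congr rfl
      intro S _
      simp only [fac, eval_add, eval_mul, eval_C, eval_X]
      ring
    rw [e]
    have h1 := ih x
    have h2 := ih (flipSet x (B k))
    obtain ⟨t1, t2⟩ := ht
    rw [abs_le] at h1 h2 ⊢
    constructor <;> nlinarith [h1.1, h1.2, h2.1, h2.2]

lemma fac_eval_one (S B : Finset (Fin n)) : (fac S B).eval 1 = 1 := by
  simp [fac]; ring

lemma prod_fac_eval_one {κ : Type} (S : Finset (Fin n)) (B : κ → Finset (Fin n)) (N : Finset κ) :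
    (∏ k ∈ N, fac S (B k)).eval 1 = 1 := by
  rw [eval_prod]; simp [fac_eval_one]

lemma prod_fac_deriv {κ : Type} [DecidableEq κ] (S : Finset (Fin n)) (B : κ → Finset (Fin n))
    (N : Finset κ) :
    (derivative (∏ k ∈ N, fac S (B k))).eval 1 = ∑ k ∈ N, (1 - eps S (B k)) / 2 := by
  induction N using Finset.induction_on with
  | empty => simp
  | insert k N hk ih =>
    rw [Finset.prod_insert hk, Finset.sum_insert hk, derivative_mul, eval_add, eval_mul, eval_mul,
      ih, prod_fac_eval_one, fac_eval_one]
    simp [fac]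

lemma prod_fac_deg {κ : Type} [DecidableEq κ] (S : Finset (Fin n)) (B : κ → Finset (Fin n))
    (N : Finset κ) (hd : ∀ k ∈ N, ∀ l ∈ N, k ≠ l → Disjoint (B k) (B l)) :
    (∏ k ∈ N, fac S (B k)).natDegree ≤ S.card := by
  calc (∏ k ∈ N, fac S (B k)).natDegree ≤ ∑ k ∈ N, (fac S (B k)).natDegree :=
        natDegree_prod_le _ _
    _ ≤ ∑ k ∈ N, (S ∩ B k).card := by
        apply Finset.sum_le_sum
        intro k _
        by_cases h : Disjoint S (B k)
        · simp [fac, eps_disj h]
        · have h1 : 0 < (S ∩ B k).card :=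
            Finset.card_pos.mpr (Finset.not_disjoint_iff_nonempty_inter.mp h)
          have h2 : (fac S (B k)).natDegree ≤ 1 := by unfold fac; compute_degree
          omega
    _ = (N.biUnion (fun k => S ∩ B k)).card := by
        rw [Finset.card_biUnion]
        intro k hk l hl hkl
        exact Finset.disjoint_of_subset_left Finset.inter_subset_right
          (Finset.disjoint_of_subset_right Finset.inter_subset_right (hd k hk l hl hkl))
    _ ≤ S.card := by
        apply Finset.card_le_card
        intro i hi
        simp only [mem_biUnion, mem_inter] at hi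
        obtain ⟨k, _, h, _⟩ := hi
        exact h

/-- block sensitivity is at most the square of the degree -/
theorem block_le {κ : Type} [DecidableEq κ] {f : Q n → Bool} {d : ℕ} {c : Finset (Fin n) → ℝ}
    (h : Rep f d c) (B : κ → Finset (Fin n)) (N : Finset κ)
    (hd : ∀ k ∈ N, ∀ l ∈ N, k ≠ l → Disjoint (B k) (B l)) (x : Q n)
    (hs : ∀ k ∈ N, f (flipSet x (B k)) ≠ f x) : (N.card : ℝ) ≤ d ^ 2 := by
  set P : ℝ[X] := C (sg (f x)) * bpoly c B N x with hP
  have hdeg : P.degree ≤ d := by
    apply degree_le_of_natDegree_le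
    refine le_trans (natDegree_C_mul_le _ _) ?_
    apply natDegree_sum_le_of_forall_le
    intro S _
    by_cases hS : d < S.card
    · simp [h.1 S hS]
    · exact le_trans (natDegree_C_mul_le _ _) (le_trans (prod_fac_deg S B N hd) (by omega))
  have hb : ∀ t ∈ Set.Icc (-1:ℝ) 1, |P.eval t| ≤ 1 := by
    intro t ht
    rw [hP, eval_mul, eval_C, abs_mul, abs_sg, one_mul]
    exact bpoly_abs h B t ht N x
  have key := Polynomial.Chebyshev.eval_iterate_derivative_le_of_forall_abs_le_one
    (k := 1) (x := 1) le_rfl hdeg hb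
  simp only [Function.iterate_one] at key
  rw [Polynomial.Chebyshev.derivative_T_eval_one] at key
  have e : (derivative P).eval 1 = N.card := by
    rw [hP, derivative_C_mul, eval_mul, eval_C]
    have e1 : (derivative (bpoly c B N x)).eval 1 = ∑ k ∈ N, sg (f x) := by
      simp only [bpoly, derivative_sum, derivative_C_mul, eval_finsetSum, eval_mul, eval_C,
        prod_fac_deriv, Finset.mul_sum]
      rw [Finset.sum_comm]
      apply Finset.sum_congr rfl
      intro k hk
      have h1 := h.2 x
      have h2 := h.2 (flipSet x (B k))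
      rw [sg_of_ne (hs k hk)] at h2
      simp only [chi_flipSet] at h2
      have : ∑ S, c S * chi S x * ((1 - eps S (B k)) / 2) =
          (∑ S, c S * chi S x - ∑ S, c S * (chi S x * eps S (B k))) / 2 := by
        rw [← Finset.sum_sub_distrib, Finset.sum_div]
        apply Finset.sum_congr rfl
        intro S _; ring
      rw [this, ← h1, ← h2]; ring
    rw [e1, Finset.mul_sum]
    simp [sg_mul_self]
  rw [e] at key
  exact_mod_cast key

end Pool.Agent.H354Z.Sens
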