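import Pool.Agent.H354Z.Sens.Fourier

set_option autoImplicit false

namespace Pool.Agent.H354Z.Sens

open Finset

variable {n : ℕ}

def esg (M : Finset (Fin n)) (i : Fin n) (x : Q n) : ℝ := chi (M.filter (fun k => k < i)) x

def opA (M : Finset (Fin n)) : (Q n → ℝ) →ₗ[ℝ] (Q n → ℝ) where
  toFun v := fun x => ∑ i ∈ M, esg M i x * v (flp x i)
  map_add' v w := by funext x; simp [mul_add, Finset.sum_add_distrib]
  map_smul' a v := by
    funext x
    simp only [Pi.smul_apply, smul_eq_mul, RingHom.id_apply, Finset.mul_sum]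
    apply Finset.sum_congr rfl
    intro i _; ring

def opD (M : Finset (Fin n)) : (Q n → ℝ) →ₗ[ℝ] (Q n → ℝ) where
  toFun v := fun x => chi M x * v x
  map_add' v w := by funext x; simp [mul_add]
  map_smul' a v := by funext x; simp only [Pi.smul_apply, smul_eq_mul, RingHom.id_apply]; ring

lemma opA_apply (M : Finset (Fin n)) (v : Q n → ℝ) (x : Q n) :
    opA M v x = ∑ i ∈ M, esg M i x * v (flp x i) := rfl

lemma opD_apply (M : Finset (Fin n)) (v : Q n → ℝ) (x : Q n) : opD M v x = chi M x * v x := rfl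

lemma esg_lt {M : Finset (Fin n)} {i k : Fin n} (hk : k ∈ M) (h : k < i) (x : Q n) :
    esg M i (flp x k) = - esg M i x := chi_flp_mem (by simp [hk, h]) x

lemma esg_ge {M : Finset (Fin n)} {i k : Fin n} (h : ¬ k < i) (x : Q n) :
    esg M i (flp x k) = esg M i x := chi_flp_notMem (by simp [h]) x

lemma abs_chi (S : Finset (Fin n)) (x : Q n) : |chi S x| = 1 := by
  unfold chi; rw [Finset.abs_prod]; simp [abs_sg]

lemma opA_sq (M : Finset (Fin n)) (v : Q n → ℝ) : opA M (opA M v) = (M.card : ℝ) • v := by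
  funext x
  set t : Fin n → Fin n → ℝ := fun i k => esg M i x * (esg M k (flp x i) * v (flp (flp x i) k))
  have e : opA M (opA M v) x = ∑ i ∈ M, ∑ k ∈ M, t i k := by
    rw [opA_apply]
    apply Finset.sum_congr rfl
    intro i _
    rw [opA_apply, Finset.mul_sum]
  have anti : ∀ i ∈ M, ∀ k ∈ M, t i k + t k i = if k = i then 2 * v x else 0 := by
    intro i hi k hk
    split_ifs with h
    · subst h
      simp only [t, flp_flp, esg_ge (lt_irrefl k)]
      have := chi_mul_self (M.filter (fun j => j < k)) x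
      unfold esg
      linear_combination (2 * v x) * this
    · simp only [t]
      rw [flp_comm x k i]
      rcases lt_or_gt_of_ne h with h1 | h1
      · rw [esg_lt hk h1, esg_ge (not_lt.mpr h1.le)]; ring
      · rw [esg_lt hi h1, esg_ge (not_lt.mpr h1.le)]; ring
  have e2 : 2 * ∑ i ∈ M, ∑ k ∈ M, t i k = ∑ i ∈ M, 2 * v x := by
    rw [two_mul]
    nth_rewrite 2 [Finset.sum_comm]
    rw [← Finset.sum_add_distrib]
    apply Finset.sum_congr rfl
    intro i hi
    rw [← Finset.sum_add_distrib, Finset.sum_congr rfl (fun k hk => anti i hi k hk)]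
    simp [hi]
  rw [e]
  simp only [Finset.sum_const, nsmul_eq_mul] at e2
  simp only [Pi.smul_apply, smul_eq_mul]
  linarith

lemma opA_opD (M : Finset (Fin n)) (v : Q n → ℝ) : opA M (opD M v) = - opD M (opA M v) := by
  funext x
  rw [Pi.neg_apply, opA_apply, opD_apply, opA_apply, Finset.mul_sum, ← Finset.sum_neg_distrib]
  apply Finset.sum_congr rfl
  intro i hi
  rw [opD_apply, chi_flp_mem hi]; ring

lemma opD_inj (M : Finset (Fin n)) : Function.Injective (opD M) := by
  intro v w h
  funext x
  have := congrFun h x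
  rw [opD_apply, opD_apply] at this
  have h2 := chi_mul_self M x
  linear_combination (chi M x) * this - (v x - w x) * h2

lemma eig_dim (M : Finset (Fin n)) :
    2 ^ n ≤ 2 * Module.finrank ℝ (LinearMap.ker (opA M - √(M.card) • LinearMap.id)) := by
  set l : ℝ := √(M.card)
  have hl : l * l = M.card := Real.mul_self_sqrt (Nat.cast_nonneg _)
  set P := opA M - l • LinearMap.id
  set P' := opA M + l • LinearMap.id
  have h1 := LinearMap.finrank_range_add_finrank_ker P
  have h2 : LinearMap.range P ≤ LinearMap.ker P' := by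
    rintro _ ⟨v, rfl⟩
    simp only [LinearMap.mem_ker, P, P', LinearMap.add_apply, LinearMap.sub_apply,
      LinearMap.smul_apply, LinearMap.id_apply, map_sub, opA_sq, smul_smul, hl]
    rw [map_smul]
    abel
  have h3 := Submodule.finrank_mono h2
  have h4 : Module.finrank ℝ (LinearMap.ker P') ≤ Module.finrank ℝ (LinearMap.ker P) := by
    have hm : ∀ v ∈ LinearMap.ker P', opD M v ∈ LinearMap.ker P := by
      intro v hv
      simp only [LinearMap.mem_ker, P, P', LinearMap.add_apply, LinearMap.sub_apply,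
        LinearMap.smul_apply, LinearMap.id_apply] at hv ⊢
      rw [opA_opD, eq_neg_of_add_eq_zero_left hv, map_neg, map_smul]
      abel
    apply LinearMap.finrank_le_finrank_of_injective (f := (opD M).restrict hm)
    intro v w h
    apply Subtype.ext
    apply opD_inj M
    exact congrArg Subtype.val h
  have h5 : Module.finrank ℝ (Q n → ℝ) = 2 ^ n := by
    rw [Module.finrank_fintype_fun_eq_card]; simp
  omega

theorem huang (M : Finset (Fin n)) (H : Finset (Q n)) (hH : 2 ^ n < 2 * H.card) :
    ∃ x ∈ H, M.card ≤ (M.filter (fun i => flp x i ∈ H)).card ^ 2 := by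
  classical
  set l : ℝ := √(M.card)
  set K := LinearMap.ker (opA M - l • LinearMap.id)
  let R : K →ₗ[ℝ] ({x // x ∈ Hᶜ} → ℝ) :=
    (LinearMap.funLeft ℝ ℝ (fun x : {x // x ∈ Hᶜ} => (x : Q n))).comp K.subtype
  have hc : H.card + Hᶜ.card = 2 ^ n := by
    rw [Finset.card_add_card_compl]; simp
  have hlt : Module.finrank ℝ ({x // x ∈ Hᶜ} → ℝ) < Module.finrank ℝ K := by
    rw [Module.finrank_fintype_fun_eq_card, Fintype.card_coe]
    have := eig_dim M
    change 2 ^ n ≤ 2 * Module.finrank ℝ K at this
    omega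
  obtain ⟨v, hv, hv0⟩ := Submodule.exists_mem_ne_zero_of_ne_bot
    (LinearMap.ker_ne_bot_of_finrank_lt (f := R) hlt)
  have hz : ∀ x, x ∉ H → v.1 x = 0 := by
    intro x hx
    exact congrFun (LinearMap.mem_ker.mp hv) ⟨x, by simpa using hx⟩
  have hA : ∀ x, opA M v.1 x = l * v.1 x := by
    intro x
    have := congrFun (LinearMap.mem_ker.mp v.2) x
    simp only [LinearMap.sub_apply, LinearMap.smul_apply, LinearMap.id_apply, Pi.sub_apply,
      Pi.smul_apply, smul_eq_mul, Pi.zero_apply] at this
    linarith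
  obtain ⟨x, hx⟩ : ∃ x : Q n, ∀ y, |v.1 y| ≤ |v.1 x| := Finite.exists_max _
  have hpos : 0 < |v.1 x| := by
    by_contra hc
    apply hv0
    apply Subtype.ext
    funext y
    have := hx y
    have : |v.1 y| ≤ 0 := by linarith
    simpa using this
  have hxH : x ∈ H := by
    by_contra hc
    rw [hz x hc] at hpos; simp at hpos
  refine ⟨x, hxH, ?_⟩
  have h1 : l * |v.1 x| ≤ ((M.filter (fun i => flp x i ∈ H)).card : ℝ) * |v.1 x| := by
    calc l * |v.1 x| = |opA M v.1 x| := by
          rw [hA, abs_mul, abs_of_nonneg (Real.sqrt_nonneg _)]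
      _ ≤ ∑ i ∈ M, |esg M i x * v.1 (flp x i)| := by
          rw [opA_apply]; exact Finset.abs_sum_le_sum_abs _ _
      _ ≤ ∑ i ∈ M, if flp x i ∈ H then |v.1 x| else 0 := by
          apply Finset.sum_le_sum
          intro i _
          rw [abs_mul, esg, abs_chi, one_mul]
          split_ifs with h
          · exact hx _
          · rw [hz _ h]; simp
      _ = _ := by rw [← Finset.sum_filter]; simp
  have h2 : l ≤ ((M.filter (fun i => flp x i ∈ H)).card : ℝ) := le_of_mul_le_mul_right h1 hpos
  have h3 : (M.card : ℝ) ≤ ((M.filter (fun i => flp x i ∈ H)).card : ℝ) ^ 2 := by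
    have hl : l * l = M.card := Real.mul_self_sqrt (Nat.cast_nonneg _)
    have : 0 ≤ l := Real.sqrt_nonneg _
    nlinarith
  exact_mod_cast h3

theorem huang_fun (g : Q n → Bool) (M : Finset (Fin n)) (h : ∑ x, sg (g x) * chi M x ≠ 0) :
    ∃ x, M.card ≤ (M.filter (fun i => g (flp x i) ≠ g x)).card ^ 2 := by
  classical
  have sq : ∀ x, sg (g x) * chi M x = 1 ∨ sg (g x) * chi M x = -1 := by
    intro x
    apply eq_or_eq_neg_of_abs_eq
    rw [abs_mul, abs_sg, abs_chi, one_mul]
  have main : ∀ a : ℝ, a ≠ 0 → 2 ^ n < 2 * (univ.filter (fun x => sg (g x) * chi M x = a)).card →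
      ∃ x, M.card ≤ (M.filter (fun i => g (flp x i) ≠ g x)).card ^ 2 := by
    intro a ha hH
    obtain ⟨x, hx, hM⟩ := huang M _ hH
    refine ⟨x, le_trans hM (Nat.pow_le_pow_left (Finset.card_le_card ?_) 2)⟩
    intro i hi
    simp only [mem_filter, mem_univ, true_and] at hi hx ⊢
    refine ⟨hi.1, fun e => ha ?_⟩
    have h2 := hi.2
    rw [e, chi_flp_mem hi.1] at h2
    linarith
  set H1 := univ.filter (fun x => sg (g x) * chi M x = 1)
  set H2 := univ.filter (fun x => sg (g x) * chi M x = -1)
  have e1 : ∑ x, sg (g x) * chi M x = H1.card - H2.card := by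
    simp only [H1, H2, Finset.card_filter]
    push_cast
    rw [← Finset.sum_sub_distrib]
    apply Finset.sum_congr rfl
    intro x _
    rcases sq x with h | h <;> rw [h] <;> norm_num
  have e2 : H1.card + H2.card = 2 ^ n := by
    have : (H1.card : ℝ) + H2.card = 2 ^ n := by
      simp only [H1, H2, Finset.card_filter]
      push_cast
      rw [← Finset.sum_add_distrib]
      rw [Finset.sum_congr rfl (g := fun _ => (1:ℝ))]
      · simp
      · intro x _
        rcases sq x with h | h <;> rw [h] <;> norm_num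
    exact_mod_cast this
  have e3 : H1.card ≠ H2.card := by
    intro e; apply h; rw [e1, e]; simp
  rcases lt_or_gt_of_ne e3 with h1 | h1
  · exact main (-1) (by norm_num) (by change 2 ^ n < 2 * H2.card; omega)
  · exact main 1 (by norm_num) (by change 2 ^ n < 2 * H1.card; omega)

lemma sum_flp (F : Q n → ℝ) (j : Fin n) : ∑ x, F (flp x j) = ∑ x, F x :=
  Equiv.sum_comp (Function.Involutive.toPerm (fun x => flp x j) (fun x => flp_flp x j)) F

lemma sum_chi_mul {S M : Finset (Fin n)} (h : ¬ M ⊆ S) : ∑ x, chi (S ∩ M) x * chi M x = 0 := by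
  obtain ⟨j, hj, hjS⟩ := Finset.not_subset.mp h
  have := sum_flp (fun x => chi (S ∩ M) x * chi M x) j
  simp only [chi_flp_mem hj, chi_flp_notMem (S := S ∩ M) (j := j) (by simp [hjS]), mul_neg,
    Finset.sum_neg_distrib] at this
  linarith

lemma top_coeff {f : Q n → Bool} {d : ℕ} {c : Finset (Fin n) → ℝ} (h : Rep f d c)
    {M : Finset (Fin n)} (hM : M.card = d) (z : Q n) :
    ∑ x, sg (f (M.piecewise x z)) * chi M x = 2 ^ n * c M := by
  simp only [h.2, chi_piecewise, Finset.sum_mul]
  rw [Finset.sum_comm, Finset.sum_eq_single M]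
  · simp only [Finset.inter_self, Finset.sdiff_self]
    rw [Finset.sum_congr rfl (g := fun _ => c M)]
    · simp
    · intro x _
      have := chi_mul_self M x
      simp only [chi, Finset.prod_empty] at this ⊢
      linear_combination (c M) * this
  · intro S _ hS
    by_cases h1 : M ⊆ S
    · have : d < S.card := hM ▸ Finset.card_lt_card (lt_of_le_of_ne h1 (Ne.symm hS))
      simp [h.1 S this]
    · have := sum_chi_mul h1
      calc ∑ x, c S * (chi (S ∩ M) x * chi (S \ M) z) * chi M x
          = c S * chi (S \ M) z * ∑ x, chi (S ∩ M) x * chi M x := by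
            rw [Finset.mul_sum]; apply Finset.sum_congr rfl; intro x _; ring
        _ = 0 := by rw [this, mul_zero]
  · simp

end Pool.Agent.H354Z.Sens
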