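import Pool.Agent.H354Z.Sens.Basic

set_option autoImplicit false

namespace Pool.Agent.H354Z.Sens

open Finset

variable {n : ℕ}

open Classical in
noncomputable def cnt (A : Q n → Prop) : ℝ := ∑ x, if A x then 1 else 0

open Classical in
noncomputable def bdx (L : Fin n → Prop) (A : Q n → Prop) (x : Q n) : ℝ :=
  ∑ j, if L j ∧ ¬ A (flp x j) then 1 else 0

open Classical in
noncomputable def bd (L : Fin n → Prop) (A : Q n → Prop) : ℝ :=
  ∑ x, if A x then bdx L A x else 0

lemma cnt_nonneg (A : Q n → Prop) : 0 ≤ cnt A := by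
  unfold cnt; apply Finset.sum_nonneg; intro x _; split_ifs <;> norm_num

lemma cnt_mono {A B : Q n → Prop} (h : ∀ x, A x → B x) : cnt A ≤ cnt B := by
  unfold cnt; apply Finset.sum_le_sum; intro x _
  by_cases hA : A x
  · simp [hA, h x hA]
  · simp only [hA, if_false]; split_ifs <;> norm_num

lemma cnt_pos {A : Q n → Prop} {x : Q n} (h : A x) : 0 < cnt A := by
  classical
  unfold cnt
  apply Finset.sum_pos'
  · intro x _; split_ifs <;> norm_num
  · exact ⟨x, mem_univ x, by simp [h]⟩

lemma exists_of_cnt_pos {A : Q n → Prop} (h : 0 < cnt A) : ∃ x, A x := by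
  by_contra hc
  push Not at hc
  simp [cnt, hc] at h

lemma sum_Q_succ (F : Q (n+1) → ℝ) :
    ∑ x, F x = ∑ y : Q n, F (Fin.cons false y) + ∑ y : Q n, F (Fin.cons true y) := by
  rw [← (Fin.consEquiv (fun _ : Fin (n+1) => Bool)).sum_comp, Fintype.sum_prod_type]
  simp [Fin.consEquiv, add_comm]

lemma flp_cons_zero (b : Bool) (y : Q n) :
    flp (Fin.cons b y : Q (n+1)) 0 = Fin.cons (!b) y := by
  simp [flp, Fin.update_cons_zero]

lemma flp_cons_succ (b : Bool) (y : Q n) (j : Fin n) :
    flp (Fin.cons b y : Q (n+1)) j.succ = Fin.cons b (flp y j) := by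
  simp [flp, Fin.cons_update]

lemma iso_aux (a0 a1 b0 b1 : ℝ) (h0 : 0 ≤ a1) (h01 : a1 ≤ a0) (hb0 : a0 ≤ b0) (hb1 : a1 ≤ b1) :
    (a0 + a1) * (Real.log 2 - Real.log (b0 + b1)) ≤
      - a0 * Real.log b0 - a1 * Real.log b1 + Real.log 2 * (a0 - a1) := by
  rcases eq_or_lt_of_le (le_trans h0 h01) with ha0 | ha0
  · have e0 : a0 = 0 := ha0.symm
    have e1 : a1 = 0 := by linarith
    simp [e0, e1]
  have hb0p : 0 < b0 := by linarith
  have hb1n : 0 ≤ b1 := by linarith
  have l1 : Real.log b0 ≤ Real.log (b0 + b1) := Real.log_le_log hb0p (by linarith)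
  rcases eq_or_lt_of_le h0 with ha1 | ha1
  · have e1 : a1 = 0 := ha1.symm
    subst e1
    nlinarith
  have hb1p : 0 < b1 := by linarith
  have l2 : 2 * Real.log 2 + Real.log b0 + Real.log b1 ≤ 2 * Real.log (b0 + b1) := by
    have e1 : 2 * Real.log 2 + Real.log b0 + Real.log b1 = Real.log (2 ^ 2 * b0 * b1) := by
      rw [Real.log_mul (by positivity) hb1p.ne', Real.log_mul (by positivity) hb0p.ne',
        Real.log_pow]; norm_num
    have e2 : 2 * Real.log (b0 + b1) = Real.log ((b0 + b1) ^ 2) := by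
      rw [Real.log_pow]; norm_num
    rw [e1, e2]
    apply Real.log_le_log (by positivity)
    nlinarith [sq_nonneg (b0 - b1)]
  nlinarith [mul_le_mul_of_nonneg_left l2 h0, mul_le_mul_of_nonneg_left l1 (sub_nonneg.mpr h01)]

theorem iso : ∀ (n : ℕ) (L : Fin n → Prop) (A B : Q n → Prop), (∀ x, A x → B x) →
    (∀ x j, ¬ L j → B x → B (flp x j)) →
    cnt A * (n * Real.log 2 - Real.log (cnt B)) ≤ Real.log 2 * bd L A := by
  classical
  intro n
  induction n with
  | zero =>
    intro L A B hAB _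
    have hbd : bd L A = 0 := by simp [bd, bdx]
    rw [hbd]
    by_cases h : ∃ x, A x
    · obtain ⟨x, hx⟩ := h
      have h1 : cnt B = 1 := by
        unfold cnt; rw [Fintype.sum_subsingleton _ x, if_pos (hAB _ hx)]
      simp [h1]
    · push Not at h
      have h1 : cnt A = 0 := by
        unfold cnt; simp [h]
      simp [h1]
  | succ n ih =>
    intro L A B hAB hB
    set A0 : Q n → Prop := fun y => A (Fin.cons false y) with hA0
    set A1 : Q n → Prop := fun y => A (Fin.cons true y) with hA1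
    set B0 : Q n → Prop := fun y => B (Fin.cons false y) with hB0
    set B1 : Q n → Prop := fun y => B (Fin.cons true y) with hB1
    set L' : Fin n → Prop := fun j => L j.succ with hL'
    have i0 := ih L' A0 B0 (fun y h => hAB _ h) (fun y j hj h => by
      have := hB _ j.succ hj h
      rwa [flp_cons_succ] at this)
    have i1 := ih L' A1 B1 (fun y h => hAB _ h) (fun y j hj h => by
      have := hB _ j.succ hj h
      rwa [flp_cons_succ] at this)
    have cA : cnt A = cnt A0 + cnt A1 := by unfold cnt; rw [sum_Q_succ]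
    have cB : cnt B = cnt B0 + cnt B1 := by unfold cnt; rw [sum_Q_succ]
    have m0 : cnt A0 ≤ cnt B0 := cnt_mono (fun y h => hAB _ h)
    have m1 : cnt A1 ≤ cnt B1 := cnt_mono (fun y h => hAB _ h)
    have n0 := cnt_nonneg A0
    have n1 := cnt_nonneg A1
    have l2 : 0 < Real.log 2 := Real.log_pos (by norm_num)
    have ebdx : ∀ (b : Bool) (y : Q n), bdx L A (Fin.cons b y) =
        (if L 0 ∧ ¬ A (Fin.cons (!b) y) then 1 else 0) +
          bdx L' (fun y => A (Fin.cons b y)) y := by
      intro b y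
      unfold bdx
      rw [Fin.sum_univ_succ, flp_cons_zero]
      congr 1
      apply Finset.sum_congr rfl
      intro j _
      rw [flp_cons_succ]
    have ebd : bd L A = bd L' A0 + bd L' A1 +
        ∑ y : Q n, ((if A0 y ∧ L 0 ∧ ¬ A1 y then (1:ℝ) else 0) +
          (if A1 y ∧ L 0 ∧ ¬ A0 y then (1:ℝ) else 0)) := by
      unfold bd
      rw [sum_Q_succ, ← Finset.sum_add_distrib, ← Finset.sum_add_distrib, ← Finset.sum_add_distrib]
      apply Finset.sum_congr rfl
      intro y _
      rw [ebdx, ebdx]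
      by_cases h0 : A0 y <;> by_cases h1 : A1 y <;> by_cases hL : L 0 <;>
        simp only [hA0, hA1] at h0 h1 <;> simp [hA0, hA1, h0, h1, hL] <;> ring
    by_cases hL : L 0
    · have hd : ∀ (P R : Q n → Prop), cnt P - cnt R ≤
          ∑ y : Q n, ((if P y ∧ L 0 ∧ ¬ R y then (1:ℝ) else 0) +
          (if R y ∧ L 0 ∧ ¬ P y then (1:ℝ) else 0)) := by
        intro P R
        unfold cnt
        rw [← Finset.sum_sub_distrib]
        apply Finset.sum_le_sum
        intro y _
        by_cases h0 : P y <;> by_cases h1 : R y <;> simp [h0, h1, hL]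
      have d0 := hd A0 A1
      have d1 := hd A1 A0
      rw [Finset.sum_congr rfl (fun y _ => add_comm _ _)] at d1
      rw [ebd, cA, cB]
      push_cast
      rcases le_total (cnt A1) (cnt A0) with h | h
      · have := iso_aux _ _ _ _ n1 h m0 m1
        nlinarith [mul_le_mul_of_nonneg_left d0 l2.le]
      · have := iso_aux _ _ _ _ n0 h m1 m0
        rw [add_comm (cnt B1)] at this
        nlinarith [mul_le_mul_of_nonneg_left d1 l2.le]
    · have e01 : cnt B1 = cnt B0 := by
        have : B1 = B0 := by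
          funext y
          apply propext
          constructor
          · intro h
            have := hB _ 0 hL h
            rwa [flp_cons_zero] at this
          · intro h
            have := hB _ 0 hL h
            rwa [flp_cons_zero] at this
        rw [this]
      have z : ∑ y : Q n, ((if A0 y ∧ L 0 ∧ ¬ A1 y then (1:ℝ) else 0) +
          (if A1 y ∧ L 0 ∧ ¬ A0 y then (1:ℝ) else 0)) = 0 := by simp [hL]
      rw [ebd, z, cA, cB, e01]
      rw [e01] at i1 m1
      rcases eq_or_lt_of_le (cnt_nonneg B0) with hz | hz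
      · have a0 : cnt A0 = 0 := by linarith
        have a1 : cnt A1 = 0 := by linarith
        rw [a0] at i0; rw [a1] at i1; rw [a0, a1]; nlinarith
      · have : Real.log (cnt B0 + cnt B0) = Real.log 2 + Real.log (cnt B0) := by
          rw [← two_mul, Real.log_mul (by norm_num) hz.ne']
        rw [this]
        push_cast
        nlinarith

/-- `x` lies in a subcube (free directions: those with `m < σ j`) on which `g` is not constant -/
def Ev (g : Q n → Bool) (σ : Fin n → ℕ) (m : ℕ) (x : Q n) : Prop :=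
  ∃ y, (∀ j, σ j ≤ m → y j = x j) ∧ g y ≠ g x

lemma Ev_mono (g : Q n → Bool) (σ : Fin n → ℕ) {m m' : ℕ} (h : m ≤ m') (x : Q n)
    (hx : Ev g σ m' x) : Ev g σ m x := by
  obtain ⟨y, h1, h2⟩ := hx
  exact ⟨y, fun j hj => h1 j (hj.trans h), h2⟩

lemma Ev_inv (g : Q n → Bool) (σ : Fin n → ℕ) (m : ℕ) (x : Q n) (j : Fin n) (hj : ¬ σ j ≤ m)
    (hx : Ev g σ m x) : Ev g σ m (flp x j) := by
  obtain ⟨y, h1, h2⟩ := hx
  have hne : ∀ k, σ k ≤ m → flp x j k = x k := fun k hk =>
    flp_ne _ (fun e => hj (e ▸ hk))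
  by_cases h : g (flp x j) = g x
  · exact ⟨y, fun k hk => by rw [h1 k hk, hne k hk], by rw [h]; exact h2⟩
  · exact ⟨x, fun k hk => (hne k hk).symm, fun e => h e.symm⟩

open Classical in
noncomputable def cj (P : Fin n → Prop) : ℕ := (univ.filter P).card

lemma gates (g : Q n → Bool) (σ : Fin n → ℕ) (hσ : ∀ x j, g (flp x j) ≠ g x → sens g x < σ j)
    (M : ℕ) (x : Q n) (hx : Ev g σ M x) (v : Bool) :
    ∃ b : ℕ, ∀ m, m ≤ M → cj (fun j => σ j ≤ m ∧ ¬ Ev g σ M (flp x j) ∧
      g (flp x j) = v) ≤ if b < m then b else 0 := by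
  classical
  obtain ⟨u, hu1, hu2⟩ : ∃ u : Q n, (∀ j, σ j ≤ M → u j = x j) ∧ g u ≠ v := by
    obtain ⟨y, h1, h2⟩ := hx
    by_cases h : g x = v
    · exact ⟨y, h1, h ▸ h2⟩
    · exact ⟨x, fun _ _ => rfl, h⟩
  refine ⟨sens g u, fun m hm => ?_⟩
  have key : ∀ j, σ j ≤ m → ¬ Ev g σ M (flp x j) → g (flp x j) = v → g (flp u j) ≠ g u := by
    intro j _ h2 h3
    have : g (flp u j) = g (flp x j) := by
      by_contra hc
      apply h2
      refine ⟨flp u j, fun k hk => ?_, hc⟩
      by_cases e : k = j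
      · subst e; simp [hu1 k hk]
      · rw [flp_ne _ e, flp_ne _ e, hu1 k hk]
    rw [this, h3]; exact hu2.symm
  unfold cj
  split_ifs with hb
  · unfold sens
    apply Finset.card_le_card
    intro j hj
    simp only [mem_filter, mem_univ, true_and] at hj ⊢
    exact key j hj.1 hj.2.1 hj.2.2
  · rw [Nat.le_zero, Finset.card_eq_zero, Finset.eq_empty_iff_forall_notMem]
    intro j hj
    simp only [mem_filter, mem_univ, true_and] at hj
    obtain ⟨h1, h2, h3⟩ := hj
    have := hσ u j (key j h1 h2 h3)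
    omega

lemma bdx_split (g : Q n → Bool) (L : Fin n → Prop) (A : Q n → Prop) (x : Q n) :
    bdx L A x = (cj (fun j => L j ∧ ¬ A (flp x j) ∧ g (flp x j) = false) : ℝ) +
      (cj (fun j => L j ∧ ¬ A (flp x j) ∧ g (flp x j) = true) : ℝ) := by
  unfold bdx cj
  rw [Finset.card_filter, Finset.card_filter]
  push_cast
  rw [← Finset.sum_add_distrib]
  apply Finset.sum_congr rfl
  intro j _
  by_cases h1 : L j <;> by_cases h2 : A (flp x j) <;> by_cases h3 : g (flp x j) = true <;>
    simp [h1, h2, h3]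

theorem core (g : Q n → Bool) (σ : Fin n → ℕ) (hσ : ∀ x j, g (flp x j) ≠ g x → sens g x < σ j)
    (τ : ℕ) (hne : ∃ x, Ev g σ (64 * τ) x) :
    ∃ m, (m = 4 * τ ∨ m = 16 * τ ∨ m = 64 * τ) ∧
      (2:ℝ) ^ n * 2 ^ τ ≤ 2 ^ m * cnt (Ev g σ m) := by
  classical
  by_contra hc
  push Not at hc
  obtain ⟨x0, hx0⟩ := hne
  set E := Ev g σ (64 * τ) with hE
  have hEpos : 0 < cnt E := cnt_pos hx0
  have l2 : 0 < Real.log 2 := Real.log_pos (by norm_num)
  have step : ∀ m, (m = 4 * τ ∨ m = 16 * τ ∨ m = 64 * τ) →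
      cnt E * ((m:ℝ) - τ) < bd (fun j => σ j ≤ m) E := by
    intro m hm
    have hmM : m ≤ 64 * τ := by omega
    have h1 := iso n (fun j => σ j ≤ m) E (Ev g σ m) (fun x hx => Ev_mono g σ hmM x hx)
      (fun x j hj hx => Ev_inv g σ m x j hj hx)
    have h2 := hc m hm
    have hp : 0 < cnt (Ev g σ m) := cnt_pos (Ev_mono g σ hmM x0 hx0)
    have h3 := Real.log_lt_log (by positivity) h2
    rw [Real.log_mul (by positivity) hp.ne', Real.log_mul (by positivity) (by positivity),
      Real.log_pow, Real.log_pow, Real.log_pow] at h3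
    have h4 : cnt E * (((m:ℝ) - τ) * Real.log 2) <
        cnt E * (n * Real.log 2 - Real.log (cnt (Ev g σ m))) := by
      apply mul_lt_mul_of_pos_left _ hEpos
      linarith
    have h5 : Real.log 2 * (cnt E * ((m:ℝ) - τ)) < Real.log 2 * bd (fun j => σ j ≤ m) E := by
      nlinarith
    exact lt_of_mul_lt_mul_left h5 l2.le
  have s1 := step (4 * τ) (Or.inl rfl)
  have s2 := step (16 * τ) (Or.inr (Or.inl rfl))
  have s3 := step (64 * τ) (Or.inr (Or.inr rfl))
  have pt : ∀ x, E x → 16 * bdx (fun j => σ j ≤ 4 * τ) E x + 4 * bdx (fun j => σ j ≤ 16 * τ) E x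
      + bdx (fun j => σ j ≤ 64 * τ) E x ≤ 168 * τ := by
    intro x hx
    obtain ⟨b0, hb0⟩ := gates g σ hσ (64 * τ) x hx false
    obtain ⟨b1, hb1⟩ := gates g σ hσ (64 * τ) x hx true
    have p1 := hb0 (4 * τ) (by omega)
    have p2 := hb0 (16 * τ) (by omega)
    have p3 := hb0 (64 * τ) (by omega)
    have q1 := hb1 (4 * τ) (by omega)
    have q2 := hb1 (16 * τ) (by omega)
    have q3 := hb1 (64 * τ) (by omega)
    rw [bdx_split g, bdx_split g, bdx_split g]
    have arith : ∀ b c1 c2 c3 : ℕ, c1 ≤ (if b < 4 * τ then b else 0) →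
        c2 ≤ (if b < 16 * τ then b else 0) → c3 ≤ (if b < 64 * τ then b else 0) →
        16 * (c1:ℝ) + 4 * c2 + c3 ≤ 84 * τ := by
      intro b c1 c2 c3 h1 h2 h3
      have : 16 * c1 + 4 * c2 + c3 ≤ 84 * τ := by
        split_ifs at h1 h2 h3 <;> omega
      exact_mod_cast this
    have r0 := arith _ _ _ _ p1 p2 p3
    have r1 := arith _ _ _ _ q1 q2 q3
    linarith
  have tot : 16 * bd (fun j => σ j ≤ 4 * τ) E + 4 * bd (fun j => σ j ≤ 16 * τ) E
      + bd (fun j => σ j ≤ 64 * τ) E ≤ cnt E * (168 * τ) := by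
    unfold bd cnt
    rw [Finset.mul_sum, Finset.mul_sum, ← Finset.sum_add_distrib, ← Finset.sum_add_distrib,
      Finset.sum_mul]
    apply Finset.sum_le_sum
    intro x _
    by_cases hx : E x
    · simp only [hx, if_true, one_mul]; exact pt x hx
    · simp [hx]
  push_cast at s1 s2 s3
  have : (0:ℝ) ≤ cnt E * τ := by positivity
  nlinarith

end Pool.Agent.H354Z.Sens
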