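import Pool.Agent.H354Z.Sens.Huang

set_option autoImplicit false

namespace Pool.Agent.H354Z.Sens

open Finset

variable {n : ℕ}

/-- `f` is not constant on the subcube through `w` with free directions `N` -/
def Fv (f : Q n → Bool) (N : Finset (Fin n)) (w : Q n) : Prop :=
  ∃ y, (∀ j, j ∉ N → y j = w j) ∧ f y ≠ f w

lemma flp_piecewise_mem {M : Finset (Fin n)} {j : Fin n} (h : j ∈ M) (x z : Q n) :
    M.piecewise (flp x j) z = flp (M.piecewise x z) j := by
  funext k
  by_cases e : k = j
  · subst e; simp [Finset.piecewise, h]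
  · rw [flp_ne _ e]
    by_cases hk : k ∈ M <;> simp [Finset.piecewise, hk, flp_ne _ e]

lemma flp_piecewise_notMem {M : Finset (Fin n)} {j : Fin n} (h : j ∉ M) (x z : Q n) :
    M.piecewise (flp x j) z = M.piecewise x z := by
  funext k
  by_cases hk : k ∈ M
  · have e : k ≠ j := fun e => h (e ▸ hk)
    simp [Finset.piecewise, hk, flp_ne _ e]
  · simp [Finset.piecewise, hk]

lemma sum_swap (M : Finset (Fin n)) (F : Q n → ℝ) :
    ∑ z : Q n, ∑ x : Q n, F (M.piecewise x z) = 2 ^ n * ∑ w, F w := by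
  have inv : Function.Involutive
      (fun p : Q n × Q n => ((M.piecewise p.2 p.1, M.piecewise p.1 p.2) : Q n × Q n)) := by
    intro p
    ext k <;> by_cases hk : k ∈ M <;> simp [Finset.piecewise, hk]
  have := Equiv.sum_comp inv.toPerm (fun p : Q n × Q n => F p.1)
  rw [Fintype.sum_prod_type, Fintype.sum_prod_type] at this
  simp only [Function.Involutive.coe_toPerm] at this
  rw [this]
  simp [Finset.mul_sum]

theorem good_sub {f : Q n → Bool} {d : ℕ} {c : Finset (Fin n) → ℝ} (h : Rep f d c)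
    {M : Finset (Fin n)} (hM : M.card = d) (hd : 0 < d) (hc : c M ≠ 0) (τ : ℕ)
    (hτ : (64 * τ) ^ 2 ≤ d) :
    ∃ N ⊆ M, N.Nonempty ∧ (∑ j ∈ N, wt f j) * (2 ^ n * 2 ^ τ) ≤ 3 * d * cnt (Fv f N) := by
  classical
  set σ : Fin n → ℕ := fun j => if j ∈ M then sig f j else 0 with hσdef
  set N : ℕ → Finset (Fin n) := fun m => M.filter (fun j => m < sig f j) with hN
  have hz : ∀ z : Q n, (2:ℝ) ^ n * 2 ^ τ ≤ ∑ m ∈ ({4 * τ, 16 * τ, 64 * τ} : Finset ℕ),
      2 ^ m * ∑ x : Q n, (if Fv f (N m) (M.piecewise x z) then (1:ℝ) else 0) := by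
    intro z
    set g : Q n → Bool := fun x => f (M.piecewise x z) with hg
    have hσ : ∀ x j, g (flp x j) ≠ g x → sens g x < σ j := by
      intro x j hj
      have hjM : j ∈ M := by
        by_contra hn
        apply hj
        simp only [hg, flp_piecewise_notMem hn]
      have h1 : f (flp (M.piecewise x z) j) ≠ f (M.piecewise x z) := by
        rw [← flp_piecewise_mem hjM]; exact hj
      have h2 := sens_lt_sig h1
      have h3 : sens g x ≤ sens f (M.piecewise x z) := by
        unfold sens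
        apply Finset.card_le_card
        intro i hi
        simp only [mem_filter, mem_univ, true_and] at hi ⊢
        by_cases hiM : i ∈ M
        · rw [← flp_piecewise_mem hiM]; exact hi
        · exfalso; apply hi; simp only [hg, flp_piecewise_notMem hiM]
      simp only [hσdef, hjM, if_true]
      omega
    have hne : ∃ x, Ev g σ (64 * τ) x := by
      have h1 : ∑ x, sg (g x) * chi M x ≠ 0 := by
        simp only [hg]
        rw [top_coeff h hM z]
        exact mul_ne_zero (by positivity) hc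
      obtain ⟨x, hx⟩ := huang_fun g M h1
      set k := (M.filter (fun i => g (flp x i) ≠ g x)).card with hk
      have hk1 : 64 * τ ≤ k := by
        have : (64 * τ) ^ 2 ≤ k ^ 2 := by omega
        exact (Nat.pow_le_pow_iff_left (by norm_num)).mp this
      have hk2 : 0 < k := by
        rcases Nat.eq_zero_or_pos k with e | e
        · rw [e] at hx; omega
        · exact e
      obtain ⟨j, hj⟩ := Finset.card_pos.mp hk2
      have hj2 : g (flp x j) ≠ g x := (Finset.mem_filter.mp hj).2
      have hk3 : k ≤ sens g x := by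
        unfold sens
        apply Finset.card_le_card
        intro i hi
        simp only [mem_filter, mem_univ, true_and] at hi ⊢
        exact hi.2
      have h4 := hσ x j hj2
      refine ⟨x, flp x j, fun i hi => flp_ne _ ?_, hj2⟩
      intro e
      rw [e] at hi; omega
    obtain ⟨m, hm, hle⟩ := core g σ hσ τ hne
    have h5 : cnt (Ev g σ m) ≤ ∑ x : Q n, (if Fv f (N m) (M.piecewise x z) then (1:ℝ) else 0) := by
      have := cnt_mono (A := Ev g σ m) (B := fun x => Fv f (N m) (M.piecewise x z)) (by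
        rintro x ⟨y, hy1, hy2⟩
        refine ⟨M.piecewise y z, fun j hj => ?_, hy2⟩
        by_cases hjM : j ∈ M
        · have : σ j ≤ m := by
            simp only [hN, mem_filter, hjM, true_and, not_lt] at hj
            simpa [hσdef, hjM] using hj
          simp [Finset.piecewise, hjM, hy1 j this]
        · simp [Finset.piecewise, hjM])
      refine le_trans this (le_of_eq ?_)
      unfold cnt
      congr
    refine le_trans hle (le_trans (mul_le_mul_of_nonneg_left h5 (by positivity)) ?_)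
    apply Finset.single_le_sum (f := fun m => (2:ℝ) ^ m *
      ∑ x : Q n, (if Fv f (N m) (M.piecewise x z) then (1:ℝ) else 0))
    · intro i _
      apply mul_nonneg (by positivity)
      apply Finset.sum_nonneg
      intro x _; split_ifs <;> norm_num
    · simp only [mem_insert, mem_singleton]; exact hm
  have hsum : (2:ℝ) ^ n * 2 ^ τ ≤ ∑ m ∈ ({4 * τ, 16 * τ, 64 * τ} : Finset ℕ),
      2 ^ m * cnt (Fv f (N m)) := by
    have h1 := Finset.sum_le_sum (s := univ) (fun z _ => hz z)
    rw [Finset.sum_comm] at h1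
    simp only [← Finset.mul_sum] at h1
    have h2 : ∀ m, ∑ z : Q n, ∑ x : Q n, (if Fv f (N m) (M.piecewise x z) then (1:ℝ) else 0) =
        2 ^ n * cnt (Fv f (N m)) := by
      intro m
      rw [sum_swap M (fun w => if Fv f (N m) w then (1:ℝ) else 0)]
      unfold cnt
      congr
    simp only [h2] at h1
    simp only [Finset.sum_const, card_univ, Fintype.card_fun, Fintype.card_bool, Fintype.card_fin,
      nsmul_eq_mul] at h1
    have h3 : ∑ m ∈ ({4 * τ, 16 * τ, 64 * τ} : Finset ℕ), (2:ℝ) ^ m * (2 ^ n * cnt (Fv f (N m))) =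
        2 ^ n * ∑ m ∈ ({4 * τ, 16 * τ, 64 * τ} : Finset ℕ), 2 ^ m * cnt (Fv f (N m)) := by
      rw [Finset.mul_sum]; apply Finset.sum_congr rfl; intro m _; ring
    rw [h3] at h1
    push_cast at h1
    have hp : (0:ℝ) < 2 ^ n := by positivity
    apply le_of_mul_le_mul_left _ hp
    linarith
  obtain ⟨m, hm⟩ : ∃ m, (2:ℝ) ^ n * 2 ^ τ ≤ 3 * (2 ^ m * cnt (Fv f (N m))) := by
    by_contra hcon
    push Not at hcon
    have h1 : ∑ m ∈ ({4 * τ, 16 * τ, 64 * τ} : Finset ℕ), 2 ^ m * cnt (Fv f (N m)) <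
        ∑ m ∈ ({4 * τ, 16 * τ, 64 * τ} : Finset ℕ), (2:ℝ) ^ n * 2 ^ τ / 3 := by
      apply Finset.sum_lt_sum_of_nonempty (by simp)
      intro m _
      have := hcon m
      linarith
    have h2 : (({4 * τ, 16 * τ, 64 * τ} : Finset ℕ).card : ℝ) ≤ 3 := by
      exact_mod_cast Finset.card_le_three
    rw [Finset.sum_const, nsmul_eq_mul] at h1
    have hp : (0:ℝ) < 2 ^ n * 2 ^ τ := by positivity
    nlinarith
  refine ⟨N m, Finset.filter_subset _ _, ?_, ?_⟩
  · have hp : (0:ℝ) < 2 ^ n * 2 ^ τ := by positivity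
    have h1 : 0 < cnt (Fv f (N m)) := by
      by_contra hcon
      have : cnt (Fv f (N m)) = 0 := le_antisymm (not_lt.mp hcon) (cnt_nonneg _)
      rw [this] at hm; linarith
    obtain ⟨x, y, hy1, hy2⟩ := exists_of_cnt_pos h1
    by_contra hcon
    rw [Finset.not_nonempty_iff_eq_empty] at hcon
    apply hy2
    congr 1
    funext j
    exact hy1 j (by simp [hcon])
  · have h1 : ∑ j ∈ N m, wt f j ≤ d * (1/2) ^ m := by
      calc ∑ j ∈ N m, wt f j ≤ ∑ j ∈ N m, (1/2:ℝ) ^ m := by
            apply Finset.sum_le_sum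
            intro j hj
            refine le_trans (wt_le f j) ?_
            exact pow_le_pow_of_le_one (by norm_num) (by norm_num)
              (Finset.mem_filter.mp hj).2.le
        _ = (N m).card * (1/2:ℝ) ^ m := by simp
        _ ≤ d * (1/2) ^ m := by
            apply mul_le_mul_of_nonneg_right _ (by positivity)
            rw [← hM]
            exact_mod_cast Finset.card_le_card (Finset.filter_subset _ _)
    have h2 : (1/2:ℝ) ^ m * 2 ^ m = 1 := by rw [← mul_pow]; norm_num
    calc (∑ j ∈ N m, wt f j) * (2 ^ n * 2 ^ τ)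
        ≤ (d * (1/2) ^ m) * (3 * (2 ^ m * cnt (Fv f (N m)))) :=
          mul_le_mul h1 hm (by positivity) (by positivity)
      _ = 3 * d * cnt (Fv f (N m)) * ((1/2:ℝ) ^ m * 2 ^ m) := by ring
      _ = _ := by rw [h2, mul_one]

lemma disj_count {f : Q n → Bool} {d : ℕ} {c : Finset (Fin n) → ℝ} (h : Rep f d c)
    (F : Finset (Finset (Fin n))) (hF : ∀ N ∈ F, ∀ N' ∈ F, N ≠ N' → Disjoint N N') :
    ∑ N ∈ F, cnt (Fv f N) ≤ 2 ^ n * d ^ 2 := by
  classical
  have key : ∀ x : Q n, ∑ N ∈ F, (if Fv f N x then (1:ℝ) else 0) ≤ d ^ 2 := by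
    intro x
    have hch : ∀ N : Finset (Fin n), ∃ B : Finset (Fin n), B ⊆ N ∧
        (Fv f N x → f (flipSet x B) ≠ f x) := by
      intro N
      by_cases hN : Fv f N x
      · obtain ⟨y, hy1, hy2⟩ := hN
        refine ⟨N.filter (fun i => y i ≠ x i), Finset.filter_subset _ _, fun _ => ?_⟩
        have : flipSet x (N.filter (fun i => y i ≠ x i)) = y := by
          funext i
          unfold flipSet
          by_cases hi : i ∈ N
          · simp only [mem_filter, hi, true_and]
            cases y i <;> cases x i <;> simp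
          · simp [hi, hy1 i hi]
        rwa [this]
      · exact ⟨∅, Finset.empty_subset _, fun h => absurd h hN⟩
    choose B hB1 hB2 using hch
    have := block_le h B (F.filter (fun N => Fv f N x)) (by
      intro k hk l hl hkl
      exact Finset.disjoint_of_subset_left (hB1 k) (Finset.disjoint_of_subset_right (hB1 l)
        (hF k (Finset.mem_filter.mp hk).1 l (Finset.mem_filter.mp hl).1 hkl))) x
      (fun k hk => hB2 k (Finset.mem_filter.mp hk).2)
    rw [Finset.card_filter] at this
    push_cast at this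
    exact this
  calc ∑ N ∈ F, cnt (Fv f N) = ∑ x : Q n, ∑ N ∈ F, (if Fv f N x then (1:ℝ) else 0) := by
        rw [Finset.sum_comm]; unfold cnt; congr
    _ ≤ ∑ x : Q n, (d:ℝ) ^ 2 := Finset.sum_le_sum (fun x _ => key x)
    _ = _ := by simp

noncomputable def del (d : ℕ) : ℝ := 3 * d ^ 3 / 2 ^ (Nat.sqrt d / 64)

theorem hitting {f : Q n → Bool} {d : ℕ} {c : Finset (Fin n) → ℝ} (h : Rep f d c) (hd : 0 < d) :
    ∃ U : Finset (Fin n), (∀ S, S.card = d → c S ≠ 0 → (S ∩ U).Nonempty) ∧
      ∑ j ∈ U, wt f j ≤ del d := by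
  classical
  set τ := Nat.sqrt d / 64
  have hτ : (64 * τ) ^ 2 ≤ d :=
    le_trans (Nat.pow_le_pow_left (Nat.mul_div_le _ _) 2) (Nat.sqrt_le' d)
  set Good : Finset (Fin n) → Prop := fun N => N.Nonempty ∧
    (∑ j ∈ N, wt f j) * (2 ^ n * 2 ^ τ) ≤ 3 * d * cnt (Fv f N) with hGood
  set P : Finset (Finset (Fin n)) → Prop := fun F => (∀ N ∈ F, Good N) ∧
    ∀ N ∈ F, ∀ N' ∈ F, N ≠ N' → Disjoint N N' with hP
  obtain ⟨F, hF, hmax⟩ := Finset.exists_max_image (univ.filter P) Finset.card
    ⟨∅, by simp [hP]⟩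
  simp only [mem_filter, mem_univ, true_and] at hF hmax
  refine ⟨F.biUnion id, ?_, ?_⟩
  · intro S hS hc
    obtain ⟨N, hN1, hN2⟩ := good_sub h hS hd hc τ hτ
    by_contra hcon
    have hdis : ∀ N' ∈ F, Disjoint N N' := by
      intro N' hN'
      rw [Finset.disjoint_left]
      intro i hi hi'
      exact hcon ⟨i, Finset.mem_inter.mpr ⟨hN1 hi, Finset.mem_biUnion.mpr ⟨N', hN', hi'⟩⟩⟩
    have hNF : N ∉ F := by
      intro hin
      have := hdis N hin
      rw [disjoint_self] at this
      exact hN2.1.ne_empty this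
    have := hmax (insert N F) ⟨by
      intro N' hN'
      rcases Finset.mem_insert.mp hN' with e | e
      · rw [e]; exact hN2
      · exact hF.1 N' e, by
      intro N1 h1 N2 h2 hne
      rcases Finset.mem_insert.mp h1 with e1 | e1 <;> rcases Finset.mem_insert.mp h2 with e2 | e2
      · exact absurd (e1.trans e2.symm) hne
      · rw [e1]; exact hdis N2 e2
      · rw [e2]; exact (hdis N1 e1).symm
      · exact hF.2 N1 e1 N2 e2 hne⟩
    rw [Finset.card_insert_of_notMem hNF] at this
    omega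
  · rw [Finset.sum_biUnion (t := id) (fun N h1 N' h2 hne => hF.2 N h1 N' h2 hne)]
    have h1 := disj_count h F hF.2
    have h2 : (∑ N ∈ F, ∑ j ∈ id N, wt f j) * (2 ^ n * 2 ^ τ) ≤ 3 * d * (2 ^ n * d ^ 2) := by
      rw [Finset.sum_mul]
      calc _ ≤ ∑ N ∈ F, 3 * (d:ℝ) * cnt (Fv f N) := Finset.sum_le_sum (fun N hN => (hF.1 N hN).2)
        _ = 3 * d * ∑ N ∈ F, cnt (Fv f N) := by rw [Finset.mul_sum]
        _ ≤ _ := mul_le_mul_of_nonneg_left h1 (by positivity)
    unfold del
    rw [le_div_iff₀ (by positivity)]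
    have hp : (0:ℝ) < 2 ^ n := by positivity
    apply le_of_mul_le_mul_left _ hp
    calc _ = (∑ N ∈ F, ∑ j ∈ id N, wt f j) * (2 ^ n * 2 ^ τ) := by ring
      _ ≤ _ := h2
      _ = _ := by ring

theorem W_le_sum (d : ℕ) : ∀ (f : Q n → Bool) (c : Finset (Fin n) → ℝ), Rep f d c →
    W f ≤ ∑ k ∈ Finset.range (d + 1), del k := by
  induction d with
  | zero => intro f c h; rw [rep_zero h]; simp [del]
  | succ d ih =>
    intro f c h
    obtain ⟨U, hU1, hU2⟩ := hitting h (Nat.succ_pos d)
    have := W_le_of_resH f U _ (fun α => by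
      obtain ⟨c', hc'⟩ := rep_resH h U hU1 α
      exact ih _ c' hc')
    rw [Finset.sum_range_succ]
    linarith

lemma del_nonneg (k : ℕ) : 0 ≤ del k := by unfold del; positivity

lemma summable_del : Summable del := by
  have l2 : 0 < Real.log 2 := Real.log_pos (by norm_num)
  set K : ℝ := 2 * (Nat.factorial 10) / (Real.log 2) ^ 10
  have hK : ∀ t : ℕ, ((t:ℝ) + 1) ^ 10 ≤ K * 2 ^ t := by
    intro t
    have h1 := Real.pow_div_factorial_le_exp (((t:ℝ) + 1) * Real.log 2) (by positivity) 10
    have h2 : Real.exp (((t:ℝ) + 1) * Real.log 2) = 2 * 2 ^ t := by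
      have : ((t:ℝ) + 1) = ((t + 1 : ℕ) : ℝ) := by push_cast; ring
      rw [this, Real.exp_nat_mul, Real.exp_log (by norm_num), pow_succ]; ring
    rw [h2, div_le_iff₀ (by positivity), mul_pow] at h1
    simp only [K]
    rw [div_mul_eq_mul_div, le_div_iff₀ (by positivity)]
    linarith
  have hs : Summable (fun k : ℕ => (3 * 64 ^ 10 * K) * (1 / (k:ℝ) ^ 2)) :=
    (Real.summable_one_div_nat_pow.mpr (by norm_num)).mul_left _
  refine Summable.of_nonneg_of_le del_nonneg (fun k => ?_) hs
  rcases Nat.eq_zero_or_pos k with e | e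
  · subst e; simp [del]
  unfold del
  set t := Nat.sqrt k / 64
  have h1 : k ≤ (64 * (t + 1)) ^ 2 := by
    have a := Nat.lt_succ_sqrt' k
    have b : (Nat.sqrt k).succ ≤ 64 * (t + 1) := by
      simp only [t]; omega
    exact le_trans a.le (Nat.pow_le_pow_left b 2)
  have h2 : (k:ℝ) ^ 5 ≤ 64 ^ 10 * ((t:ℝ) + 1) ^ 10 := by
    have : (k:ℝ) ≤ (64 * ((t:ℝ) + 1)) ^ 2 := by exact_mod_cast h1
    calc (k:ℝ) ^ 5 ≤ ((64 * ((t:ℝ) + 1)) ^ 2) ^ 5 := pow_le_pow_left₀ (by positivity) this 5
      _ = _ := by ring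
  have hk : (0:ℝ) < k := by exact_mod_cast e
  rw [mul_one_div, div_le_div_iff₀ (by positivity) (by positivity)]
  have h3 := hK t
  calc 3 * (k:ℝ) ^ 3 * k ^ 2 = 3 * k ^ 5 := by ring
    _ ≤ 3 * (64 ^ 10 * (K * 2 ^ t)) := by
        apply mul_le_mul_of_nonneg_left _ (by norm_num)
        exact le_trans h2 (mul_le_mul_of_nonneg_left h3 (by positivity))
    _ = _ := by ring

theorem W_le (f : Q n → Bool) : W f ≤ ∑' k, del k := by
  obtain ⟨c, hc⟩ := exists_rep f
  exact le_trans (W_le_sum n f c hc) (summable_del.sum_le_tsum _ (fun k _ => del_nonneg k))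

open Classical in
/-- a Boolean function of sensitivity at most `s` has `O(4 ^ s)` relevant variables -/
theorem card_rel_le (f : Q n → Bool) (s : ℕ) (hs : ∀ x, sens f x ≤ s) :
    ((univ.filter (Rel f)).card : ℝ) ≤ (∑' k, del k) * 4 ^ s := by
  have h1 : ((univ.filter (Rel f)).card : ℝ) * (1/2) ^ (2 * s) ≤ W f := by
    unfold W
    rw [Finset.card_filter]
    push_cast
    rw [Finset.sum_mul]
    apply Finset.sum_le_sum
    intro i _
    unfold wt
    split_ifs with h
    · rw [one_mul]
      apply pow_le_pow_of_le_one (by norm_num) (by norm_num)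
      apply sig_le
      intro x _
      have := hs x
      have := hs (flp x i)
      omega
    · simp
  have h2 : (1/2:ℝ) ^ (2 * s) * 4 ^ s = 1 := by
    rw [pow_mul, ← mul_pow]; norm_num
  calc ((univ.filter (Rel f)).card : ℝ)
      = ((univ.filter (Rel f)).card : ℝ) * (1/2) ^ (2 * s) * 4 ^ s := by rw [mul_assoc, h2, mul_one]
    _ ≤ _ := mul_le_mul_of_nonneg_right (h1.trans (W_le f)) (by positivity)

end Pool.Agent.H354Z.Sens
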